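import Pool.Agent.Helper88.GU.St

/-! # Project GU2: module VE (free action, primes of `A[X]` and the elements `1 + X + .. + X^(e-1)`) -/

set_option autoImplicit false

namespace Pool.Agent.Helper80.GU2

open Polynomial
open Pool.Agent.Helper88.GU

universe u

theorem hVE : Pool.Agent.Helper88.GU.StVE.{u} := by
  intro R A _ _ _ G m x e h P hP hex
  by_contra hcon
  push Not at hcon
  have hP' : (P.comap (C : A →+* A[X])).IsPrime := Ideal.IsPrime.comap _
  have hex' : ∃ l, x l ∉ P.comap (C : A →+* A[X]) := hex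
  have : IsDomain (A[X] ⧸ P) := Ideal.Quotient.isDomain P
  set ξ : A[X] ⧸ P := Ideal.Quotient.mk P X with hξ
  have hsum : ∀ l, x l ∉ P.comap (C : A →+* A[X]) →
      ∑ i ∈ Finset.range (e l), ξ ^ i = 0 := by
    intro l hl
    have h1 : br (e l) ∈ P := (hP.mem_or_mem (hcon l)).resolve_left hl
    have h2 := Ideal.Quotient.eq_zero_iff_mem.2 h1
    unfold br at h2
    rw [map_sum] at h2
    rw [← h2]
    exact Finset.sum_congr rfl fun i _ => (map_pow _ _ _).symm
  -- a prime dividing all the degrees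
  have key : ∃ p : ℕ, p.Prime ∧ ∀ l, x l ∉ P.comap (C : A →+* A[X]) → p ∣ e l := by
    by_cases h1 : ξ = 1
    · have hz : ∀ l, x l ∉ P.comap (C : A →+* A[X]) → ((e l : ℕ) : A[X] ⧸ P) = 0 := by
        intro l hl
        have h2 := hsum l hl
        rw [h1] at h2
        simpa using h2
      obtain ⟨l₀, hl₀⟩ := hex'
      refine ⟨ringChar (A[X] ⧸ P), ?_, fun l hl => (ringChar.spec _ _).1 (hz l hl)⟩
      rcases CharP.char_is_prime_or_zero (A[X] ⧸ P) (ringChar (A[X] ⧸ P)) with h2 | h2
      · exact h2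
      · exfalso
        have h3 := (ringChar.spec _ _).1 (hz l₀ hl₀)
        rw [h2, zero_dvd_iff] at h3
        have h4 := h.pos l₀
        omega
    · have ho : orderOf ξ ≠ 1 := fun h2 => h1 (orderOf_eq_one_iff.1 h2)
      obtain ⟨p, hp, hpd⟩ := Nat.exists_prime_and_dvd ho
      refine ⟨p, hp, fun l hl => hpd.trans (orderOf_dvd_of_pow_eq_one ?_)⟩
      have h2 := mul_geom_sum ξ (e l)
      rw [hsum l hl, mul_zero] at h2
      exact (sub_eq_zero.1 h2.symm)
  obtain ⟨p, hp, hpd⟩ := key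
  obtain ⟨l, hl, hnd⟩ := h.gcd _ hP' hex' p hp
  exact hnd (hpd l hl)

end Pool.Agent.Helper80.GU2
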